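import Pool.Agent.H97Z.JE.Defs

set_option autoImplicit false

open Filter Finset
open scoped BigOperators Topology

noncomputable section

namespace Pool.Agent.H53Z.JE

open Pool.Agent.H97Z.JE

lemma norm_ee (x : ℝ) : ‖ee x‖ = 1 := by
  unfold ee
  rw [show (2 * Real.pi * x * Complex.I : ℂ) = ((2 * Real.pi * x : ℝ) : ℂ) * Complex.I by
    push_cast; ring]
  exact Complex.norm_exp_ofReal_mul_I _

lemma ee_add (x y : ℝ) : ee (x + y) = ee x * ee y := by
  unfold ee
  rw [← Complex.exp_add]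
  congr 1
  push_cast
  ring

lemma norm_E_le {ι : Type} (s : Finset ι) (f : ι → ℂ) (g : ι → ℝ) (h : ∀ i ∈ s, ‖f i‖ ≤ g i) :
    ‖𝔼 i ∈ s, f i‖ ≤ 𝔼 i ∈ s, g i :=
  (RCLike.norm_expect_le (K := ℝ)).trans (expect_le_expect h)

lemma E_le_const {ι : Type} (s : Finset ι) (g : ι → ℝ) (a : ℝ) (ha : 0 ≤ a)
    (h : ∀ i ∈ s, g i ≤ a) : 𝔼 i ∈ s, g i ≤ a := by
  rcases s.eq_empty_or_nonempty with rfl | hs
  · simpa using ha
  · exact expect_le hs h

/-- exponential sums with a nonzero frequency vector -/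
theorem weyl (h : S_e3) (hb : S_blk) {k : ℕ} {c : Fin k → ℝ} (hc : Ok c) (μ : Fin k → ℝ)
    (hμ : μ ≠ 0) :
    Tendsto (fun N : ℕ => 𝔼 n ∈ Icc 1 N, ee (∑ j, μ j * (n : ℝ) ^ c j)) atTop (𝓝 0) := by
  by_contra hcon
  rw [tendsto_zero_iff_norm_tendsto_zero, Metric.tendsto_nhds] at hcon
  push Not at hcon
  obtain ⟨δ, hδ, hfr⟩ := hcon
  simp only [dist_zero_right, norm_norm] at hfr
  set P : Set ℕ := {N | δ ≤ ‖𝔼 n ∈ Icc 1 N, ee (∑ j, μ j * (n : ℝ) ^ c j)‖} with hP
  have hne : (atTop ⊓ 𝓟 P : Filter ℕ).NeBot := frequently_iff_neBot.1 hfr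
  obtain ⟨x, L, hB, hx⟩ := hb (atTop ⊓ 𝓟 P) inf_le_left
    (fun _ n => ee (∑ j, μ j * (n : ℝ) ^ c j)) (fun _ _ => (norm_ee _).le) δ hδ
    (mem_inf_of_right (mem_principal_self P))
  have hsupp : (univ.filter fun j => μ j ≠ 0).Nonempty := by
    obtain ⟨j, hj⟩ := Function.ne_iff.1 hμ
    exact ⟨j, mem_filter.2 ⟨mem_univ _, hj⟩⟩
  obtain ⟨j0, hj0, hmax⟩ := exists_max_image _ c hsupp
  have hj0' : μ j0 ≠ 0 := (mem_filter.1 hj0).2
  have hxR : Tendsto (fun i => (x i : ℝ)) (atTop ⊓ 𝓟 P) atTop :=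
    tendsto_natCast_atTop_atTop.comp hB.hx
  have key := h ℕ _ x L hB (Fin k) c (fun a _ => μ a) (fun _ _ => 0) (c j0)
    (fun a => if a = j0 then μ a else 0) (hc.2 j0).1
    (fun a m hm => (hc.2 a).2 m (by exact_mod_cast hm))
    (fun a => by simp)
    (fun a => by
      by_cases ha : a = j0
      · subst ha
        rw [if_pos rfl]
        refine tendsto_const_nhds.congr' ?_
        filter_upwards [hxR.eventually_gt_atTop 0] with i hi
        have := (Real.rpow_pos_of_pos hi (c a)).ne'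
        field_simp
      · rw [if_neg ha]
        by_cases h0 : μ a = 0
        · simp [h0]
        · have hlt : c a < c j0 :=
            lt_of_le_of_ne (hmax a (mem_filter.2 ⟨mem_univ _, h0⟩)) fun e => ha (hc.1 e)
          have h1 := ((tendsto_rpow_neg_atTop (sub_pos.2 hlt)).comp hxR).const_mul (μ a)
          rw [mul_zero] at h1
          refine h1.congr' ?_
          filter_upwards [hxR.eventually_gt_atTop 0] with i hi
          simp only [Function.comp]
          rw [neg_sub, Real.rpow_sub hi, mul_div_assoc])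
    ⟨j0, by
      rw [sum_ite_eq', if_pos (by simp)]
      exact hj0'⟩
  have h2 := (tendsto_zero_iff_norm_tendsto_zero.1 key).eventually
    (gt_mem_nhds (show (0 : ℝ) < δ / 4 by positivity))
  obtain ⟨i, hi1, hi2⟩ := (hx.and h2).exists
  simp only [add_zero] at hi2
  exact absurd hi1 (not_le.2 hi2)

/-- density of the trigonometric polynomials -/
theorem sw {k : ℕ} (p q : ℕ → UnitAddTorus (Fin k))
    (hm : ∀ m : Fin k → ℤ, Tendsto (fun N : ℕ => 𝔼 n ∈ Icc 1 N,
      (UnitAddTorus.mFourier m (p n) - UnitAddTorus.mFourier m (q n))) atTop (𝓝 0))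
    (G : C(UnitAddTorus (Fin k), ℂ)) :
    Tendsto (fun N : ℕ => 𝔼 n ∈ Icc 1 N, (G (p n) - G (q n))) atTop (𝓝 0) := by
  have h1 : ∀ H ∈ Submodule.span ℂ (Set.range (UnitAddTorus.mFourier (d := Fin k))),
      Tendsto (fun N : ℕ => 𝔼 n ∈ Icc 1 N, (H (p n) - H (q n))) atTop (𝓝 0) := by
    intro H hH
    induction hH using Submodule.span_induction with
    | mem x hx => obtain ⟨m, rfl⟩ := hx; exact hm m
    | zero => simp
    | add x y _ _ hx hy =>
      have := hx.add hy
      rw [add_zero] at this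
      refine this.congr fun N => ?_
      rw [← expect_add_distrib]
      refine expect_congr rfl fun n _ => ?_
      simp only [ContinuousMap.add_apply]
      ring
    | smul a x _ hx =>
      have := hx.const_mul a
      rw [mul_zero] at this
      refine this.congr fun N => ?_
      rw [mul_expect]
      refine expect_congr rfl fun n _ => ?_
      simp only [ContinuousMap.smul_apply, smul_eq_mul]
      ring
  have hG : G ∈ closure ((Submodule.span ℂ
      (Set.range (UnitAddTorus.mFourier (d := Fin k))) : Submodule ℂ _) :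
        Set C(UnitAddTorus (Fin k), ℂ)) := by
    rw [← Submodule.topologicalClosure_coe, UnitAddTorus.span_mFourier_closure_eq_top]
    trivial
  rw [Metric.tendsto_nhds]
  intro ε hε
  obtain ⟨H, hH, hGH⟩ := Metric.mem_closure_iff.1 hG (ε / 4) (by positivity)
  filter_upwards [Metric.tendsto_nhds.1 (h1 H hH) (ε / 4) (by positivity)] with N hN
  rw [dist_zero_right] at hN ⊢
  have e : 𝔼 n ∈ Icc 1 N, (G (p n) - G (q n)) = 𝔼 n ∈ Icc 1 N, (H (p n) - H (q n)) +
      𝔼 n ∈ Icc 1 N, ((G (p n) - H (p n)) - (G (q n) - H (q n))) := by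
    rw [← expect_add_distrib]
    exact expect_congr rfl fun n _ => by ring
  have h2 : ∀ z, ‖G z - H z‖ ≤ ε / 4 := fun z => by
    rw [← dist_eq_norm]
    exact (ContinuousMap.dist_apply_le_dist z).trans hGH.le
  have h3 : ‖𝔼 n ∈ Icc 1 N, ((G (p n) - H (p n)) - (G (q n) - H (q n)))‖ ≤ ε / 2 := by
    refine (norm_E_le _ _ (fun _ => ε / 2) fun n _ => ?_).trans
      (E_le_const _ _ _ (by positivity) fun _ _ => le_rfl)
    have := norm_sub_le (G (p n) - H (p n)) (G (q n) - H (q n))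
    linarith [h2 (p n), h2 (q n)]
  rw [e]
  have := norm_add_le (𝔼 n ∈ Icc 1 N, (H (p n) - H (q n)))
    (𝔼 n ∈ Icc 1 N, ((G (p n) - H (p n)) - (G (q n) - H (q n))))
  linarith

/-- asymptotic translation invariance for continuous periodic functions -/
theorem key (h : S_e3) (hb : S_blk) {k : ℕ} {c : Fin k → ℝ} (hc : Ok c) (Q : ℝ) (hQ : 0 < Q)
    (f : Fin k → ℝ → ℂ) (hf : ∀ j, Continuous (f j)) (hp : ∀ j, Function.Periodic (f j) Q)
    (s : Fin k → ℝ) :
    Tendsto (fun N : ℕ => 𝔼 n ∈ Icc 1 N,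
      (∏ j, f j ((n : ℝ) ^ c j + s j) - ∏ j, f j ((n : ℝ) ^ c j))) atTop (𝓝 0) := by
  have hp1 : ∀ j, Function.Periodic (fun x => f j (Q * x)) 1 := fun j x => by
    simp only [mul_add, mul_one]
    exact hp j _
  have hcont : ∀ j, Continuous ((hp1 j).lift : UnitAddCircle → ℂ) := fun j => by
    refine (QuotientAddGroup.isQuotientMap_mk _).continuous_iff.2 ?_
    exact (hf j).comp (continuous_const.mul continuous_id)
  let G : C(UnitAddTorus (Fin k), ℂ) :=
    ⟨fun t => ∏ j, ((hp1 j).lift : UnitAddCircle → ℂ) (t j),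
      continuous_finsetProd _ fun j _ => (hcont j).comp (continuous_apply j)⟩
  have hG : ∀ u : Fin k → ℝ, G (fun j => ((u j / Q : ℝ) : UnitAddCircle)) = ∏ j, f j (u j) := by
    intro u
    change ∏ j, ((hp1 j).lift : UnitAddCircle → ℂ) ((u j / Q : ℝ) : UnitAddCircle) = _
    refine prod_congr rfl fun j _ => ?_
    rw [Function.Periodic.lift_coe, mul_div_cancel₀ _ hQ.ne']
  have hF : ∀ (m : Fin k → ℤ) (u : Fin k → ℝ),
      UnitAddTorus.mFourier m (fun j => ((u j / Q : ℝ) : UnitAddCircle)) =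
        ee (∑ j, m j / Q * u j) := by
    intro m u
    change ∏ j, fourier (m j) ((u j / Q : ℝ) : UnitAddCircle) = _
    simp only [fourier_coe_apply]
    rw [← Complex.exp_sum]
    unfold ee
    congr 1
    push_cast
    rw [mul_sum, sum_mul]
    exact sum_congr rfl fun j _ => by ring
  have := sw (fun n j => ((((n : ℝ) ^ c j + s j) / Q : ℝ) : UnitAddCircle))
    (fun n j => (((n : ℝ) ^ c j / Q : ℝ) : UnitAddCircle)) (fun m => ?_) G
  · refine this.congr fun N => expect_congr rfl fun n _ => ?_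
    rw [hG fun j => (n : ℝ) ^ c j + s j, hG fun j => (n : ℝ) ^ c j]
  · by_cases hm : m = 0
    · subst hm
      simp [UnitAddTorus.mFourier_zero]
    · have hw := (weyl h hb hc (fun j => m j / Q) (by
        obtain ⟨j, hj⟩ := Function.ne_iff.1 hm
        refine Function.ne_iff.2 ⟨j, div_ne_zero ?_ hQ.ne'⟩
        exact_mod_cast hj)).const_mul (ee (∑ j, m j / Q * s j) - 1)
      rw [mul_zero] at hw
      refine hw.congr fun N => ?_
      rw [mul_expect]
      refine expect_congr rfl fun n _ => ?_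
      rw [hF m fun j => (n : ℝ) ^ c j + s j, hF m fun j => (n : ℝ) ^ c j]
      simp only [mul_add, sum_add_distrib, ee_add]
      ring

/-- a tent around the integers -/
def tau (M : ℕ) (x : ℝ) : ℝ := max 0 (1 - 4 * M * ‖(x : UnitAddCircle)‖)

lemma tau_cont (M : ℕ) : Continuous (tau M) := by
  unfold tau
  have : Continuous fun x : ℝ => (x : UnitAddCircle) := AddCircle.continuous_mk' 1
  fun_prop

lemma tau_int (M : ℕ) (x : ℝ) (z : ℤ) : tau M (x + z) = tau M x := by
  unfold tau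
  have : ((z : ℝ) : UnitAddCircle) = 0 := by
    rw [AddCircle.coe_eq_zero_iff]
    exact ⟨z, by simp⟩
  rw [AddCircle.coe_add, this, add_zero]

lemma tau_nonneg (M : ℕ) (x : ℝ) : 0 ≤ tau M x := le_max_left _ _

lemma tau_le (M : ℕ) (x : ℝ) : tau M x ≤ 1 := by
  unfold tau
  refine max_le zero_le_one ?_
  have : 0 ≤ 4 * (M : ℝ) * ‖(x : UnitAddCircle)‖ := by positivity
  linarith

lemma tau_zero (M : ℕ) : tau M 0 = 1 := by simp [tau]

lemma tau_sum (M : ℕ) (hM : 0 < M) (x : ℝ) : ∑ i ∈ range M, tau M (x + i / (2 * M)) ≤ 1 := by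
  have hM' : (0 : ℝ) < M := by exact_mod_cast hM
  by_cases h0 : ∀ i ∈ range M, tau M (x + i / (2 * M)) = 0
  · rw [sum_eq_zero h0]; exact zero_le_one
  push Not at h0
  obtain ⟨i, hi, hi0⟩ := h0
  rw [sum_eq_single_of_mem i hi]
  · exact tau_le _ _
  intro j hj hji
  by_contra hj0
  have hlt : ∀ y, tau M y ≠ 0 → 4 * (M : ℝ) * ‖(y : UnitAddCircle)‖ < 1 := by
    intro y hy
    by_contra hcon
    exact hy (max_eq_left (by linarith [not_lt.1 hcon]))
  have h1 := hlt _ hi0
  have h2 := hlt _ hj0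
  have hiM : (i : ℝ) < M := by exact_mod_cast mem_range.1 hi
  have hjM : (j : ℝ) < M := by exact_mod_cast mem_range.1 hj
  have hi0' : (0 : ℝ) ≤ i := Nat.cast_nonneg _
  have hj0' : (0 : ℝ) ≤ j := Nat.cast_nonneg _
  have h3 : ‖(((i - j) / (2 * M) : ℝ) : UnitAddCircle)‖ = |((i - j) / (2 * M) : ℝ)| := by
    rw [AddCircle.norm_coe_eq_abs_iff _ one_ne_zero, abs_one, abs_div,
      abs_of_pos (show (0 : ℝ) < 2 * M by positivity), div_le_div_iff₀ (by positivity) two_pos]
    have : |(i : ℝ) - j| ≤ M := abs_le.2 ⟨by linarith, by linarith⟩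
    linarith
  have h4 : (((i - j) / (2 * M) : ℝ) : UnitAddCircle) =
      ((x + i / (2 * M) : ℝ) : UnitAddCircle) - ((x + j / (2 * M) : ℝ) : UnitAddCircle) := by
    rw [← AddCircle.coe_sub]
    congr 1
    ring
  have h5 := norm_sub_le ((x + i / (2 * M) : ℝ) : UnitAddCircle)
    ((x + j / (2 * M) : ℝ) : UnitAddCircle)
  rw [← h4, h3, abs_div, abs_of_pos (show (0 : ℝ) < 2 * M by positivity),
    div_le_iff₀ (by positivity)] at h5
  have h6 : (1 : ℝ) ≤ |(i : ℝ) - j| := by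
    have : (1 : ℤ) ≤ |(i : ℤ) - j| := Int.one_le_abs (by omega)
    exact_mod_cast this
  nlinarith

/-- the sequence is rarely near an integer -/
theorem tau_avg (h : S_e3) (hb : S_blk) {k : ℕ} {c : Fin k → ℝ} (hc : Ok c) (j : Fin k) (M : ℕ)
    (hM : 0 < M) :
    ∀ᶠ N : ℕ in atTop, 𝔼 n ∈ Icc 1 N, tau M ((n : ℝ) ^ c j) ≤ 2 / M := by
  have hM' : (0 : ℝ) < M := by exact_mod_cast hM
  have h1 : ∀ s : ℝ, Tendsto (fun N : ℕ => 𝔼 n ∈ Icc 1 N,
      (tau M ((n : ℝ) ^ c j + s) - tau M ((n : ℝ) ^ c j))) atTop (𝓝 0) := by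
    intro s
    have := key h hb hc 1 one_pos (fun i x => if i = j then (tau M x : ℂ) else 1)
      (fun i => by
        split_ifs
        · exact Complex.continuous_ofReal.comp (tau_cont M)
        · exact continuous_const)
      (fun i x => by
        have := tau_int M x 1
        rw [Int.cast_one] at this
        simp only [this]) (fun _ => s)
    simp only [prod_ite_eq', mem_univ, if_true] at this
    have h2 := (Complex.continuous_re.tendsto 0).comp this
    rw [Complex.zero_re] at h2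
    refine h2.congr fun N => ?_
    simp only [Function.comp]
    rw [← Complex.ofReal_re (𝔼 n ∈ Icc 1 N, (tau M ((n : ℝ) ^ c j + s) - tau M ((n : ℝ) ^ c j))),
      Complex.ofReal_expect]
    simp only [Complex.ofReal_sub]
  have h2 := tendsto_finsetSum (range M) fun i _ => h1 ((i : ℕ) / (2 * M))
  rw [sum_const_zero] at h2
  filter_upwards [h2.eventually (lt_mem_nhds (show (-1 : ℝ) < 0 by norm_num))] with N hN
  simp only [expect_sub_distrib, sum_sub_distrib, sum_const, card_range, nsmul_eq_mul] at hN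
  rw [← expect_sum_comm] at hN
  have h3 := E_le_const (Icc 1 N) _ 1 zero_le_one fun n _ => tau_sum M hM ((n : ℝ) ^ c j)
  rw [le_div_iff₀ hM']
  linarith

lemma cont_cut (M : ℕ) (w : ℤ → ℂ) (C : ℝ) (hw : ∀ z, ‖w z‖ ≤ C) :
    Continuous fun x : ℝ => w ⌊x⌋ * ((1 - tau M x : ℝ) : ℂ) := by
  have hc : Continuous fun x : ℝ => ((1 - tau M x : ℝ) : ℂ) :=
    Complex.continuous_ofReal.comp (continuous_const.sub (tau_cont M))
  rw [continuous_iff_continuousAt]
  intro x
  by_cases hx : (⌊x⌋ : ℝ) = x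
  · have h0 : ((1 - tau M x : ℝ) : ℂ) = 0 := by
      have := tau_int M 0 ⌊x⌋
      rw [zero_add, hx, tau_zero] at this
      rw [this, sub_self, Complex.ofReal_zero]
    unfold ContinuousAt
    beta_reduce
    rw [h0, mul_zero]
    have h1 := (hc.tendsto x).norm.const_mul C
    rw [h0, norm_zero, mul_zero] at h1
    refine squeeze_zero_norm (fun y => ?_) h1
    rw [norm_mul]
    exact mul_le_mul_of_nonneg_right (hw _) (norm_nonneg _)
  · have h1 : (⌊x⌋ : ℝ) < x := lt_of_le_of_ne (Int.floor_le x) hx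
    refine ((continuous_const (y := w ⌊x⌋)).mul hc).continuousAt.congr ?_
    filter_upwards [Ioo_mem_nhds h1 (Int.lt_floor_add_one x)] with y hy
    rw [Int.floor_eq_iff.2 ⟨hy.1.le, hy.2⟩]
    rfl

lemma one_sub_prod_le {ι : Type} (s : Finset ι) (t : ι → ℝ) (h0 : ∀ i, 0 ≤ t i)
    (h1 : ∀ i, t i ≤ 1) : 1 - ∏ i ∈ s, (1 - t i) ≤ ∑ i ∈ s, t i := by
  classical
  induction s using Finset.induction_on with
  | empty => simp
  | insert a s ha ih =>
    rw [prod_insert ha, sum_insert ha]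
    have : ∏ i ∈ s, (1 - t i) ≤ 1 :=
      prod_le_one (fun i _ => by linarith [h1 i]) fun i _ => by linarith [h0 i]
    nlinarith [h0 a]

/-- asymptotic translation invariance for periodic functions of the integer parts -/
theorem shift (h : S_e3) (hb : S_blk) {k : ℕ} {c : Fin k → ℝ} (hc : Ok c) (Q : ℕ) (hQ : 0 < Q)
    (w : Fin k → ℤ → ℂ) (hw : ∀ j z, w j (z + Q) = w j z) (C : ℝ) (hC : ∀ j z, ‖w j z‖ ≤ C)
    (s : Fin k → ℤ) :
    Tendsto (fun N : ℕ => 𝔼 n ∈ Icc 1 N,
      (∏ j, w j (⌊(n : ℝ) ^ c j⌋ + s j) - ∏ j, w j ⌊(n : ℝ) ^ c j⌋)) atTop (𝓝 0) := by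
  rw [Metric.tendsto_nhds]
  intro ε hε
  set D : ℝ := |C| ^ k with hD
  have hD0 : 0 ≤ D := by positivity
  obtain ⟨M, hM⟩ := exists_nat_gt (8 * D * k / ε)
  have hM' : (0 : ℝ) < M := lt_of_le_of_lt (by positivity) hM
  have hM0 : 0 < M := by exact_mod_cast hM'
  have h1 := key h hb hc Q (by exact_mod_cast hQ)
    (fun j x => w j ⌊x⌋ * ((1 - tau M x : ℝ) : ℂ)) (fun j => cont_cut M (w j) C (hC j))
    (fun j x => by
      have := tau_int M x Q
      rw [Int.cast_natCast] at this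
      simp only [Int.floor_add_natCast, hw, this]) (fun j => s j)
  have h2 : ∀ᶠ N : ℕ in atTop, ∀ j, 𝔼 n ∈ Icc 1 N, tau M ((n : ℝ) ^ c j) ≤ 2 / M :=
    eventually_all.2 fun j => tau_avg h hb hc j M hM0
  filter_upwards [Metric.tendsto_nhds.1 h1 (ε / 2) (by positivity), h2] with N hN1 hN2
  rw [dist_zero_right] at hN1 ⊢
  simp only [Int.floor_add_intCast, tau_int, prod_mul_distrib] at hN1
  have hprod : ∀ z : Fin k → ℤ, ‖∏ j, w j (z j)‖ ≤ D := by
    intro z
    rw [norm_prod]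
    refine (prod_le_prod (fun _ _ => norm_nonneg _)
      (fun j _ => (hC j (z j)).trans (le_abs_self C))).trans ?_
    simp [hD]
  set a : ℕ → ℂ := fun n => ∏ j, w j (⌊(n : ℝ) ^ c j⌋ + s j) with ha
  set b : ℕ → ℂ := fun n => ∏ j, w j ⌊(n : ℝ) ^ c j⌋ with hb'
  set t : ℕ → ℂ := fun n => ∏ j, ((1 - tau M ((n : ℝ) ^ c j) : ℝ) : ℂ) with ht
  change ‖𝔼 n ∈ Icc 1 N, (a n * t n - b n * t n)‖ < ε / 2 at hN1
  change ‖𝔼 n ∈ Icc 1 N, (a n - b n)‖ < ε
  have e : 𝔼 n ∈ Icc 1 N, (a n - b n) =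
      𝔼 n ∈ Icc 1 N, (a n * t n - b n * t n) + 𝔼 n ∈ Icc 1 N, (a n - b n) * (1 - t n) := by
    rw [← expect_add_distrib]
    exact expect_congr rfl fun n _ => by ring
  have h3 : ‖𝔼 n ∈ Icc 1 N, (a n - b n) * (1 - t n)‖ ≤
      𝔼 n ∈ Icc 1 N, 2 * D * ∑ j, tau M ((n : ℝ) ^ c j) := by
    refine norm_E_le _ _ _ fun n _ => ?_
    rw [norm_mul]
    have h4 : ‖a n - b n‖ ≤ 2 * D := by
      have := norm_sub_le (a n) (b n)
      have h5 : ‖a n‖ ≤ D := hprod fun j => ⌊(n : ℝ) ^ c j⌋ + s j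
      have h6 : ‖b n‖ ≤ D := hprod fun j => ⌊(n : ℝ) ^ c j⌋
      linarith
    have h5 : ‖1 - t n‖ ≤ ∑ j, tau M ((n : ℝ) ^ c j) := by
      have e2 : 1 - t n = ((1 - ∏ j, (1 - tau M ((n : ℝ) ^ c j)) : ℝ) : ℂ) := by
        simp only [ht]
        push_cast
        rfl
      have h7 : ∏ j, (1 - tau M ((n : ℝ) ^ c j)) ≤ 1 :=
        prod_le_one (fun i _ => by linarith [tau_le M ((n : ℝ) ^ c i)])
          fun i _ => by linarith [tau_nonneg M ((n : ℝ) ^ c i)]
      rw [e2, Complex.norm_real, Real.norm_of_nonneg (by linarith)]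
      exact one_sub_prod_le _ _ (fun _ => tau_nonneg _ _) fun _ => tau_le _ _
    exact mul_le_mul h4 h5 (norm_nonneg _) (by positivity)
  rw [← mul_expect, expect_sum_comm] at h3
  have h4 : ∑ j, 𝔼 n ∈ Icc 1 N, tau M ((n : ℝ) ^ c j) ≤ k * (2 / M) := by
    refine (sum_le_sum fun j _ => hN2 j).trans ?_
    simp
  have h5 : 2 * D * (k * (2 / M)) ≤ ε / 2 := by
    rw [div_lt_iff₀ hε] at hM
    have : 2 * D * (k * (2 / M)) = 4 * D * k / M := by ring
    rw [this, div_le_iff₀ hM']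
    linarith
  have h6 := mul_le_mul_of_nonneg_left h4 (show 0 ≤ 2 * D by positivity)
  rw [e]
  have := norm_add_le (𝔼 n ∈ Icc 1 N, (a n * t n - b n * t n))
    (𝔼 n ∈ Icc 1 N, (a n - b n) * (1 - t n))
  linarith

theorem thm_e2 (h : S_e3) (hb : S_blk) : S_e2 := by
  intro k c hc Q hQ w hw
  have hper : ∀ j m, w j (m % Q) = w j m := fun j m =>
    Function.Periodic.map_mod_nat (f := w j) (hw j) m
  have hW : ∀ j (m : ℕ), w j ((m : ℤ) % Q).toNat = w j m := by
    intro j m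
    rw [← Int.natCast_mod, Int.toNat_natCast, hper]
  have hsum : ∀ j m, ∑ s ∈ range Q, w j (m + s) = ∑ s ∈ range Q, w j s := by
    intro j m
    induction m with
    | zero => simp
    | succ m ih =>
      have e1 := sum_range_succ (fun s => w j (m + s)) Q
      have e2 := sum_range_succ' (fun s => w j (m + s)) Q
      rw [hw, ih] at e1
      rw [e1, add_zero] at e2
      rw [add_right_cancel e2]
      exact sum_congr rfl fun s _ => by rw [add_assoc, add_comm 1 s]
  have hC : ∀ j (z : ℤ), ‖w j (z % Q).toNat‖ ≤ ∑ j, ∑ s ∈ range Q, ‖w j s‖ := by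
    intro j z
    have h1 : (z % Q).toNat ∈ range Q := by
      have := Int.emod_lt_of_pos z (show (0 : ℤ) < Q by exact_mod_cast hQ)
      have := Int.emod_nonneg z (show (Q : ℤ) ≠ 0 by exact_mod_cast hQ.ne')
      rw [mem_range]
      omega
    exact (single_le_sum (f := fun s => ‖w j s‖) (fun _ _ => norm_nonneg _) h1).trans
      (single_le_sum (f := fun j => ∑ s ∈ range Q, ‖w j s‖)
        (fun _ _ => sum_nonneg fun _ _ => norm_nonneg _) (mem_univ j))
  have h1 : ∀ s : Fin k → ℕ, Tendsto (fun N : ℕ => 𝔼 n ∈ Icc 1 N,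
      (∏ j, w j (fl (c j) n + s j) - ∏ j, w j (fl (c j) n))) atTop (𝓝 0) := by
    intro s
    have := shift h hb hc Q hQ (fun j z => w j (z % Q).toNat) (fun j z => by simp) _ hC
      (fun j => s j)
    refine this.congr fun N => expect_congr rfl fun n _ => ?_
    have e : ∀ j, ⌊(n : ℝ) ^ c j⌋ = (fl (c j) n : ℤ) := fun j =>
      (Int.natCast_floor_eq_floor (Real.rpow_nonneg (Nat.cast_nonneg n) _)).symm
    simp only [e, ← Nat.cast_add, hW]
  have h2 := tendsto_finsetSum (Fintype.piFinset fun _ : Fin k => range Q) fun s _ => h1 s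
  rw [sum_const_zero] at h2
  have hQ' : (Q : ℂ) ^ k ≠ 0 := pow_ne_zero _ (by exact_mod_cast hQ.ne')
  have h3 := (h2.const_sub (∏ j, ∑ s ∈ range Q, w j s)).div_const ((Q : ℂ) ^ k)
  have e3 : (∏ j, ∑ s ∈ range Q, w j s - 0) / (Q : ℂ) ^ k = ∏ i, 𝔼 m ∈ range Q, w i m := by
    simp only [expect_eq_sum_div_card, card_range, prod_div_distrib, prod_const, card_univ,
      Fintype.card_fin, sub_zero]
  rw [e3] at h3
  refine h3.congr' ?_
  filter_upwards [eventually_ge_atTop 1] with N hN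
  rw [← expect_sum_comm]
  have e4 : ∀ n, ∑ s ∈ Fintype.piFinset fun _ : Fin k => range Q,
      (∏ j, w j (fl (c j) n + s j) - ∏ j, w j (fl (c j) n)) =
      ∏ j, ∑ s ∈ range Q, w j s - (Q : ℂ) ^ k * ∏ j, w j (fl (c j) n) := by
    intro n
    rw [sum_sub_distrib, ← prod_univ_sum (fun _ : Fin k => range Q)
      (fun j s => w j (fl (c j) n + s))]
    simp [hsum]
  simp only [e4]
  rw [expect_sub_distrib, expect_const (nonempty_Icc.2 hN), ← mul_expect]
  field_simp
  ring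

end Pool.Agent.H53Z.JE
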